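import Pool.Agent.H71.TCZ.M02
import Pool.Agent.H71.TCZ.M03

/-!
# The product `K₀(B) → K₁(A)` with a unit of `A` commuting with the image of `B`

For a ring homomorphism `φ : B → A` and a unit `z` of `A` which commutes with the image of `φ` the
class `[e]` of an idempotent matrix `e` is sent to the class of `1 + φ(e) (z - 1)`.
-/

set_option autoImplicit false

open Matrix

universe u v w

namespace Pool.Agent.H71.DB

open Pool.Agent.H71.FJ (MatEquiv IdemMat K0 K0.mk K0.lift K0.lift_mk K0.hom_ext K0.map)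
open Pool.Agent.H95.WH (K1 K1.mk K1.cls K1.cls_mk K1.cls_mul K1.cls_vas K1.cls_upper K1.cls_reindex K1.cls_conj K1.map K1.map_mk K1.map_cls)

section

variable {A : Type u} [Ring A] {B : Type v} [Ring B]

/-- The matrix `1 + φ(e) (w - 1)`. -/
def bmat (φ : B →+* A) {ι : Type*} [DecidableEq ι] (e : Matrix ι ι B) (w : A) :
    Matrix ι ι A := 1 + e.map fun b => φ b * (w - 1)

theorem map_mul_map (φ : B →+* A) {ι κ μ : Type*} [Fintype κ]
    (X : Matrix ι κ B) (Y : Matrix κ μ B) (s t : A) (hs : ∀ b, φ b * s = s * φ b) :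
    (X.map fun b => φ b * s) * (Y.map fun b => φ b * t) =
      (X * Y).map fun b => φ b * (s * t) := by
  refine Matrix.ext fun i j => ?_
  rw [Matrix.mul_apply, Matrix.map_apply, Matrix.mul_apply, map_sum, Finset.sum_mul]
  refine Finset.sum_congr rfl fun k _ => ?_
  rw [Matrix.map_apply, Matrix.map_apply, map_mul]
  calc φ (X i k) * s * (φ (Y k j) * t) = φ (X i k) * (s * φ (Y k j)) * t := by
        simp only [mul_assoc]
    _ = _ := by
      rw [← hs]
      simp only [mul_assoc]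

theorem comm_sub_one {φ : B →+* A} {w : A} (hw : ∀ b, φ b * w = w * φ b) (b : B) :
    φ b * (w - 1) = (w - 1) * φ b := by
  rw [mul_sub, sub_mul, hw, mul_one, one_mul]

theorem comm_inv {φ : B →+* A} {z : Aˣ} (hz : ∀ b, φ b * z = z * φ b) (b : B) :
    φ b * ((z⁻¹ : Aˣ) : A) = ((z⁻¹ : Aˣ) : A) * φ b := by
  have h := congrArg (fun a => ((z⁻¹ : Aˣ) : A) * a * ((z⁻¹ : Aˣ) : A)) (hz b)
  beta_reduce at h
  rw [← mul_assoc, mul_assoc _ (z : A), Units.mul_inv, mul_one, ← mul_assoc, Units.inv_mul,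
    one_mul] at h
  exact h.symm

theorem bmat_mul (φ : B →+* A) {ι : Type*} [Fintype ι] [DecidableEq ι] (e : Matrix ι ι B)
    (he : e * e = e) (w w' : A) (hw : ∀ b, φ b * w = w * φ b) :
    bmat φ e w * bmat φ e w' = bmat φ e (w * w') := by
  rw [bmat, bmat, bmat, add_mul, mul_add, mul_add, one_mul, mul_one, one_mul,
    map_mul_map φ e e (w - 1) (w' - 1) (comm_sub_one hw), he]
  refine Matrix.ext fun i j => ?_
  simp only [Matrix.add_apply, Matrix.map_apply]
  have e1 : φ (e i j) * (w * w' - 1) = φ (e i j) * (w' - 1) + (φ (e i j) * (w - 1) +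
      φ (e i j) * ((w - 1) * (w' - 1))) := by
    rw [← mul_add, ← mul_add]
    congr 1
    noncomm_ring
  rw [e1, add_assoc]

theorem bmat_one (φ : B →+* A) {ι : Type*} [DecidableEq ι] (e : Matrix ι ι B) :
    bmat φ e 1 = 1 := by
  refine Matrix.ext fun i j => ?_
  simp [bmat]

/-- The invertible matrix `1 + φ(e) (z - 1)`. -/
def bU (φ : B →+* A) {ι : Type*} [Fintype ι] [DecidableEq ι] (e : Matrix ι ι B)
    (he : e * e = e) (z : Aˣ) (hz : ∀ b, φ b * z = z * φ b) : (Matrix ι ι A)ˣ where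
  val := bmat φ e z
  inv := bmat φ e ((z⁻¹ : Aˣ) : A)
  val_inv := by rw [bmat_mul φ e he _ _ hz, Units.mul_inv, bmat_one]
  inv_val := by rw [bmat_mul φ e he _ _ (comm_inv hz), Units.inv_mul, bmat_one]

theorem bU_congr (φ : B →+* A) (z : Aˣ) (hz : ∀ b, φ b * z = z * φ b) {ι κ : Type*} [Fintype ι]
    [DecidableEq ι] [Fintype κ] [DecidableEq κ] {e : Matrix ι ι B} {f : Matrix κ κ B}
    (he : e * e = e) (hf : f * f = f) (h : MatEquiv e f) :
    K1.cls (bU φ e he z hz) = K1.cls (bU φ f hf z hz) := by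
  obtain ⟨x, y, h1, h2⟩ := h
  apply K1.cls_vas (x.map fun b => φ b * ((z : A) - 1)) (y.map fun b => φ b * 1)
  · rw [map_mul_map φ x y _ _ (comm_sub_one hz), h1, mul_one]
    rfl
  · rw [map_mul_map φ y x _ _ (fun b => by rw [mul_one, one_mul]), h2, one_mul]
    rfl

theorem bU_sum (φ : B →+* A) (z : Aˣ) (hz : ∀ b, φ b * z = z * φ b) (a b : IdemMat B) :
    K1.cls (bU φ (a.sum b).mat (a.sum b).idem z hz) =
      K1.cls (bU φ a.mat a.idem z hz) + K1.cls (bU φ b.mat b.idem z hz) := by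
  have h1 : K1.cls (bU φ (Matrix.fromBlocks a.mat 0 0 b.mat)
      (Pool.Agent.H71.FJ.K0.fromBlocks_idem a.idem b.idem) z hz) =
      K1.cls (bU φ a.mat a.idem z hz) + K1.cls (bU φ b.mat b.idem z hz) := by
    refine K1.cls_upper _ _ 0 _ ?_
    change bmat φ _ _ = Matrix.fromBlocks (bmat φ _ _) 0 0 (bmat φ _ _)
    rw [bmat, bmat, bmat, Matrix.fromBlocks_map, ← Matrix.fromBlocks_one, Matrix.fromBlocks_add]
    congr 1
    · rw [zero_add]
      refine Matrix.ext fun i j => ?_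
      simp
    · rw [zero_add]
      refine Matrix.ext fun i j => ?_
      simp
  rw [← h1]
  exact bU_congr φ z hz _ _ (Pool.Agent.H71.FJ.K0.matEquiv_submatrix _
    (Pool.Agent.H71.FJ.K0.fromBlocks_idem a.idem b.idem) _)

/-- The homomorphism `K₀(B) → K₁(A)`, `[e] ↦ [1 + φ(e) (z - 1)]`. -/
noncomputable def bass (φ : B →+* A) (z : Aˣ) (hz : ∀ b, φ b * z = z * φ b) : K0 B →+ K1 A :=
  K0.lift (fun a => K1.mk (bU φ a.mat a.idem z hz))
    (fun a b h => by
      rw [← K1.cls_mk, ← K1.cls_mk]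
      exact bU_congr φ z hz a.idem b.idem h)
    (fun a b => by
      rw [← K1.cls_mk, ← K1.cls_mk, ← K1.cls_mk]
      exact bU_sum φ z hz a b)

theorem bass_mk (φ : B →+* A) (z : Aˣ) (hz : ∀ b, φ b * z = z * φ b) (a : IdemMat B) :
    bass φ z hz (K0.mk a) = K1.mk (bU φ a.mat a.idem z hz) := K0.lift_mk _ _ _ a

theorem bass_mul (φ : B →+* A) (z z' : Aˣ) (hz : ∀ b, φ b * z = z * φ b)
    (hz' : ∀ b, φ b * z' = z' * φ b) (h : ∀ b, φ b * ((z * z' : Aˣ) : A) = ((z * z' : Aˣ) : A) * φ b)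
    (x : K0 B) : bass φ (z * z') h x = bass φ z hz x + bass φ z' hz' x := by
  suffices H : bass φ (z * z') h = bass φ z hz + bass φ z' hz' from DFunLike.congr_fun H x
  apply K0.hom_ext
  intro a
  rw [AddMonoidHom.add_apply, bass_mk, bass_mk, bass_mk, ← Pool.Agent.H95.WH.K1.mk_mul]
  congr 1
  apply Units.ext
  rw [Units.val_mul]
  change bmat φ _ _ = bmat φ _ _ * bmat φ _ _
  rw [bmat_mul φ a.mat a.idem _ _ hz, Units.val_mul]

theorem bass_comp {C : Type w} [Ring C] (φ : B →+* A) (ψ : C →+* B) (z : Aˣ)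
    (hz : ∀ b, φ b * z = z * φ b) (x : K0 C) :
    bass φ z hz (K0.map ψ x) = bass (φ.comp ψ) z (fun c => hz (ψ c)) x := by
  suffices H : (bass φ z hz).comp (K0.map ψ) = bass (φ.comp ψ) z (fun c => hz (ψ c)) from
    DFunLike.congr_fun H x
  apply K0.hom_ext
  intro a
  rw [AddMonoidHom.comp_apply, Pool.Agent.H71.FJ.K0.map_mk', bass_mk, bass_mk]
  rfl

/-- Conjugation invariance. -/
theorem bass_conj (φ φ' : B →+* A) (z z' g : Aˣ) (hz : ∀ b, φ b * z = z * φ b)
    (hz' : ∀ b, φ' b * z' = z' * φ' b) (h : ∀ b, φ' b = g * φ b * ((g⁻¹ : Aˣ) : A))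
    (hzz : (z' : A) = g * z * ((g⁻¹ : Aˣ) : A)) (x : K0 B) :
    bass φ' z' hz' x = bass φ z hz x := by
  suffices H : bass φ' z' hz' = bass φ z hz from DFunLike.congr_fun H x
  apply K0.hom_ext
  intro a
  rw [bass_mk, bass_mk, ← K1.cls_mk, ← K1.cls_mk]
  apply K1.cls_conj (Matrix.diagonal fun _ => (g : A)) (Matrix.diagonal fun _ => ((g⁻¹ : Aˣ) : A))
  · rw [Matrix.diagonal_mul_diagonal, ← Matrix.diagonal_one]
    simp
  · rw [Matrix.diagonal_mul_diagonal, ← Matrix.diagonal_one]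
    simp
  · change bmat φ' _ _ = _ * bmat φ _ _ * _
    refine Matrix.ext fun i j => ?_
    rw [Matrix.mul_diagonal, Matrix.diagonal_mul, bmat, bmat, Matrix.add_apply, Matrix.add_apply,
      Matrix.map_apply, Matrix.map_apply, mul_add, add_mul]
    congr 1
    · by_cases hij : i = j
      · rw [hij, Matrix.one_apply_eq, mul_one, Units.mul_inv]
      · rw [Matrix.one_apply_ne hij, mul_zero, zero_mul]
    · rw [h, hzz]
      have e1 : (g : A) * (z : A) * ((g⁻¹ : Aˣ) : A) - 1 =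
          g * ((z : A) - 1) * ((g⁻¹ : Aˣ) : A) := by
        rw [mul_sub, sub_mul, mul_one, Units.mul_inv]
      rw [e1]
      calc (g : A) * φ (a.mat i j) * ((g⁻¹ : Aˣ) : A) * (g * ((z : A) - 1) * ((g⁻¹ : Aˣ) : A))
          = g * φ (a.mat i j) * (((g⁻¹ : Aˣ) : A) * g) * ((z : A) - 1) * ((g⁻¹ : Aˣ) : A) := by
            simp only [mul_assoc]
        _ = _ := by
          rw [Units.inv_mul, mul_one]
          simp only [mul_assoc]

theorem map_bass {C : Type w} [Ring C] (φ : B →+* A) (z : Aˣ) (hz : ∀ b, φ b * z = z * φ b)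
    (f : A →+* C) (h : ∀ b, (f.comp φ) b * (Units.map (f : A →* C) z : Cˣ) =
      (Units.map (f : A →* C) z : Cˣ) * (f.comp φ) b) (x : K0 B) :
    K1.map f (bass φ z hz x) = bass (f.comp φ) (Units.map (f : A →* C) z) h x := by
  suffices H : (K1.map f).comp (bass φ z hz) = bass (f.comp φ) (Units.map (f : A →* C) z) h from
    DFunLike.congr_fun H x
  apply K0.hom_ext
  intro a
  rw [AddMonoidHom.comp_apply, bass_mk, bass_mk, K1.map_mk]
  congr 1
  apply Units.ext
  refine Matrix.ext fun i j => ?_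
  change f (bmat φ a.mat z i j) = bmat (f.comp φ) a.mat _ i j
  rw [bmat, bmat, Matrix.add_apply, Matrix.add_apply, Matrix.map_apply, Matrix.map_apply, map_add,
    map_mul, map_sub, map_one]
  congr 1
  by_cases hij : i = j
  · rw [hij, Matrix.one_apply_eq, Matrix.one_apply_eq, map_one]
  · rw [Matrix.one_apply_ne hij, Matrix.one_apply_ne hij, map_zero]

end

end Pool.Agent.H71.DB
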